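import Mathlib

/-!
# A bridgeless cubic graph with weak oddness 4 and oddness 6

Let `P'` be the Petersen graph minus a vertex (9 vertices: a hexagon `A 0, ..., A 5` and three
vertices `B k`, where `B k` is joined to `A k` and `A (k + 3)`; each `B k` has one outer edge), and
let `Q` be the Petersen graph minus two adjacent vertices (8 vertices: a hexagon `C 0, ..., C 5`
and two vertices `D k`, `k = 0, 1`, where `D k` is joined to `C k` and `C (k + 3)`; outer edges at
`D 0`, `D 1`, `C 2`, `C 5`). Take three copies of `P'` and three copies of `Q` and one vertex `z`;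
join `z` to the three `B 0`, join `B 1` and `B 2` of the `i`-th copy of `P'` to `D 0` and `D 1` of
the `i`-th copy of `Q`, and join `C 2` of the `i`-th copy of `Q` to `C 5` of the next one.

* Every even factor has an odd component inside each of the three copies of `P'`, hence at least
  four odd components, as their number is even. The three 9-circuits of the copies of `P'`, the
  24-circuit through the copies of `Q` and the isolated vertex `z` give exactly four.
* In a 2-factor exactly two of the edges at `z` are used. If the edge from `z` to the `i`-th copy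
  of `P'` is used, then exactly one of the edges between the `i`-th copies of `P'` and `Q` is used,
  and then there is a 5-circuit of the factor inside the `i`-th copy of `Q`. So a 2-factor has at
  least five, hence at least six, odd circuits.
-/

set_option autoImplicit false

namespace Pool.Agent.Results.MP_ada129_co.WeakOddnessFour


/-- `F` is an even factor of `G`: a spanning subgraph in which every vertex has degree 0 or 2. -/
def IsEvenFactor {V : Type} (G F : SimpleGraph V) : Prop :=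
  F ≤ G ∧ ∀ v : V, (F.neighborSet v).ncard = 0 ∨ (F.neighborSet v).ncard = 2

/-- `F` is a 2-factor of `G`: a spanning subgraph in which every vertex has degree 2. -/
def IsTwoFactor {V : Type} (G F : SimpleGraph V) : Prop :=
  F ≤ G ∧ ∀ v : V, (F.neighborSet v).ncard = 2

/-- The number of components of `F` with an odd number of vertices. -/
noncomputable def oddCount {V : Type} (F : SimpleGraph V) : ℕ :=
  {c : F.ConnectedComponent | Odd c.supp.ncard}.ncard

/-- The oddness of `G`: the least number of odd components of a 2-factor of `G`. -/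
noncomputable def oddness {V : Type} (G : SimpleGraph V) : ℕ :=
  sInf {k : ℕ | ∃ F : SimpleGraph V, IsTwoFactor G F ∧ oddCount F = k}

/-- The weak oddness of `G`: the least number of odd components of an even factor of `G`. -/
noncomputable def weakOddness {V : Type} (G : SimpleGraph V) : ℕ :=
  sInf {k : ℕ | ∃ F : SimpleGraph V, IsEvenFactor G F ∧ oddCount F = k}

section general

variable {V : Type}

theorem closed_reach {F : SimpleGraph V} {T : Set V}
    (hT : ∀ u ∈ T, ∀ w, F.Adj u w → w ∈ T) {u w : V} (hu : u ∈ T) (h : F.Reachable u w) :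
    w ∈ T := by
  obtain ⟨p⟩ := h
  induction p with
  | nil => exact hu
  | cons h p ih => exact ih (hT _ hu _ h)

theorem exists_odd_comp [Finite V] {F : SimpleGraph V} {T : Set V}
    (hT : ∀ u ∈ T, ∀ w, F.Adj u w → w ∈ T) (ho : Odd T.ncard) :
    ∃ c : F.ConnectedComponent, Odd c.supp.ncard ∧ c.supp ⊆ T := by
  classical
  have := Fintype.ofFinite V
  by_contra hcon
  push Not at hcon
  rw [Set.ncard_eq_toFinset_card' T] at ho
  rw [Finset.card_eq_sum_card_fiberwise (f := F.connectedComponentMk) (t := Finset.univ)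
    (fun _ _ => Finset.mem_coe.2 (Finset.mem_univ _))] at ho
  apply Nat.not_even_iff_odd.2 ho
  apply Finset.even_sum
  intro c _
  by_cases hc : c.supp ⊆ T
  · have h1 : (T.toFinset.filter fun x => F.connectedComponentMk x = c) = c.supp.toFinset := by
      ext x
      simp only [Finset.mem_filter, Set.mem_toFinset, SimpleGraph.ConnectedComponent.mem_supp_iff]
      exact ⟨fun h => h.2, fun h => ⟨hc (by simpa using h), h⟩⟩
    rw [h1, ← Set.ncard_eq_toFinset_card']
    exact Nat.not_odd_iff_even.1 fun h => hcon c h hc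
  · have h1 : (T.toFinset.filter fun x => F.connectedComponentMk x = c) = ∅ := by
      apply Finset.filter_eq_empty_iff.2
      intro x hx hxc
      apply hc
      intro y hy
      have hy' : F.connectedComponentMk y = c := by simpa using hy
      have hr : F.Reachable x y := SimpleGraph.ConnectedComponent.eq.1 (hxc.trans hy'.symm)
      exact closed_reach hT (by simpa using hx) hr
    rw [h1]
    simp

theorem card_le_oddCount [Finite V] (F : SimpleGraph V) {ι : Type} [Fintype ι] (T : ι → Set V)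
    (hT : ∀ i, ∀ u ∈ T i, ∀ w, F.Adj u w → w ∈ T i) (ho : ∀ i, Odd (T i).ncard)
    (hd : ∀ i j, i ≠ j → Disjoint (T i) (T j)) : Fintype.card ι ≤ oddCount F := by
  choose c hc1 hc2 using fun i => exists_odd_comp (hT i) (ho i)
  have hinj : Function.Injective c := by
    intro i j hij
    by_contra hne
    obtain ⟨x, hx⟩ := (c i).nonempty_supp
    exact Set.disjoint_left.1 (hd i j hne) (hc2 i hx) (hc2 j (hij ▸ hx))
  unfold oddCount
  rw [← Nat.card_eq_fintype_card, ← Nat.card_coe_set_eq]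
  exact Nat.card_le_card_of_injective (fun i => ⟨c i, hc1 i⟩)
    fun i j hij => hinj (congrArg Subtype.val hij)

theorem even_oddCount [Finite V] (F : SimpleGraph V) (h : Even (Nat.card V)) :
    Even (oddCount F) := by
  rw [← Nat.not_odd_iff_even] at h ⊢
  exact fun h' => h ((F.odd_ncard_oddComponents).1 h')

theorem reach_root {F : SimpleGraph V} (p : V → V) (rk : V → ℕ)
    (h : ∀ v, p v = v ∨ (F.Adj v (p v) ∧ rk (p v) < rk v)) (v : V) :
    ∃ r, p r = r ∧ F.Reachable v r := by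
  induction hn : rk v using Nat.strong_induction_on generalizing v with
  | _ n ih =>
    rcases h v with h1 | ⟨h1, h2⟩
    · exact ⟨v, h1, SimpleGraph.Reachable.refl v⟩
    · obtain ⟨r, hr1, hr2⟩ := ih (rk (p v)) (hn ▸ h2) (p v) rfl
      exact ⟨r, hr1, h1.reachable.trans hr2⟩

theorem oddCount_le [Finite V] {F : SimpleGraph V} (p : V → V) (rk : V → ℕ)
    (h : ∀ v, p v = v ∨ (F.Adj v (p v) ∧ rk (p v) < rk v)) :
    oddCount F ≤ {v | p v = v}.ncard := by
  unfold oddCount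
  have h1 : {c : F.ConnectedComponent | Odd c.supp.ncard} ⊆
      F.connectedComponentMk '' {v | p v = v} := by
    intro c _
    induction c using SimpleGraph.ConnectedComponent.ind with
    | h v =>
      obtain ⟨r, hr1, hr2⟩ := reach_root p rk h v
      exact ⟨r, hr1, SimpleGraph.ConnectedComponent.eq.2 hr2.symm⟩
  exact (Set.ncard_le_ncard h1 (Set.toFinite _)).trans (Set.ncard_image_le (Set.toFinite _))

end general

/-! ### The graph -/

/-- the `k`-th neighbour of the vertex `v` -/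
def nbN (v k : ℕ) : ℕ :=
  if v = 51 then 17 * k + 6
  else if v % 17 < 6 then
    (if k = 0 then 17 * (v / 17) + (v % 17 + 1) % 6
      else if k = 1 then 17 * (v / 17) + (v % 17 + 5) % 6
      else 17 * (v / 17) + 6 + v % 17 % 3)
  else if v % 17 < 9 then
    (if k = 0 then 17 * (v / 17) + (v % 17 - 6)
      else if k = 1 then 17 * (v / 17) + (v % 17 - 3)
      else if v % 17 = 6 then 51 else 17 * (v / 17) + 8 + v % 17)
  else if v % 17 < 15 then
    (if k = 0 then 17 * (v / 17) + 9 + (v % 17 - 9 + 1) % 6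
      else if k = 1 then 17 * (v / 17) + 9 + (v % 17 - 9 + 5) % 6
      else if v % 17 = 11 then 17 * ((v / 17 + 1) % 3) + 14
      else if v % 17 = 14 then 17 * ((v / 17 + 2) % 3) + 11
      else 17 * (v / 17) + 15 + (v % 17 - 9) % 3)
  else
    (if k = 0 then 17 * (v / 17) + 9 + (v % 17 - 15)
      else if k = 1 then 17 * (v / 17) + 12 + (v % 17 - 15)
      else 17 * (v / 17) + 7 + (v % 17 - 15))

/-- the `k`-th neighbour of the vertex `v` -/
def nb (v : Fin 52) (k : Fin 3) : Fin 52 := Fin.ofNat 52 (nbN v k)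

theorem nb_ne : ∀ (v : Fin 52) (k : Fin 3), nb v k ≠ v := by decide +kernel

theorem nb_inj : ∀ (v : Fin 52) (k l : Fin 3), nb v k = nb v l → k = l := by decide +kernel

/-- the spanning subgraph given by a choice of darts -/
def mkG (b : Fin 52 → Fin 3 → Bool)
    (hs : ∀ u k, b u k = true → ∃ l, b (nb u k) l = true ∧ nb (nb u k) l = u) :
    SimpleGraph (Fin 52) where
  Adj u v := ∃ k, b u k = true ∧ nb u k = v
  symm := ⟨fun u v => by
    rintro ⟨k, hk, rfl⟩
    exact hs u k hk⟩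
  loopless := ⟨fun u => by
    rintro ⟨k, _, h⟩
    exact nb_ne u k h⟩



def tabWm : List ℕ :=
   [0, 1, 0, 1, 0, 1, 2, 2, 2, 0, 1, 0, 1, 0, 1, 2, 2, 0, 1, 0, 1, 0, 1, 2, 2, 2, 0, 1, 0, 1, 0,
   1, 2, 2, 0, 1, 0, 1, 0, 1, 2, 2, 2, 0, 1, 0, 1, 0, 1, 2, 2, 3]

def tabWp : List ℕ :=
   [0, 2, 8, 6, 3, 0, 0, 4, 5, 9, 16, 10, 15, 12, 9, 9, 13, 17, 19, 25, 23, 20, 17, 17, 21, 22,
   31, 28, 48, 32, 29, 11, 26, 27, 34, 36, 42, 40, 37, 34, 34, 38, 39, 49, 45, 14, 47, 50, 43,
   46, 44, 51]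

def tabWr : List ℕ :=
   [0, 4, 3, 2, 3, 1, 1, 4, 2, 0, 5, 6, 2, 3, 1, 1, 4, 0, 4, 3, 2, 3, 1, 1, 4, 2, 8, 11, 10, 10,
   11, 7, 9, 12, 0, 4, 3, 2, 3, 1, 1, 4, 2, 8, 3, 2, 6, 5, 9, 7, 4, 0]

def tabSm : List ℕ :=
   [0, 1, 0, 1, 0, 1, 2, 2, 2, 0, 1, 0, 1, 0, 1, 2, 2, 0, 1, 2, 2, 0, 1, 1, 2, 0, 1, 2, 2, 0, 1,
   0, 2, 0, 0, 1, 2, 2, 0, 1, 1, 2, 0, 0, 1, 0, 1, 2, 2, 2, 1, 0]

def tabSp : List ℕ :=
   [0, 2, 8, 6, 3, 0, 0, 4, 5, 9, 16, 10, 15, 12, 9, 9, 13, 23, 18, 18, 19, 24, 25, 51, 18, 33,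
   26, 26, 27, 32, 31, 11, 26, 30, 39, 35, 35, 36, 41, 42, 34, 35, 50, 43, 45, 14, 49, 48, 43,
   43, 44, 40]

def tabSr : List ℕ :=
   [0, 4, 3, 2, 3, 1, 1, 4, 2, 0, 5, 6, 2, 3, 1, 1, 4, 11, 0, 1, 2, 2, 11, 10, 1, 10, 0, 1, 2, 2,
   8, 7, 1, 9, 7, 0, 1, 2, 2, 6, 8, 1, 5, 0, 3, 2, 2, 2, 1, 1, 4, 9]

def tabGp : List ℕ :=
   [0, 0, 1, 6, 5, 0, 0, 1, 5, 15, 16, 12, 15, 16, 9, 7, 8, 23, 17, 20, 23, 20, 17, 51, 18, 22,
   31, 26, 27, 30, 31, 11, 24, 25, 40, 34, 37, 40, 37, 34, 51, 35, 39, 44, 45, 14, 45, 46, 47,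
   41, 42, 6]

def tabGr : List ℕ :=
   [0, 1, 2, 2, 2, 1, 1, 2, 2, 4, 4, 5, 4, 4, 5, 3, 3, 4, 5, 5, 4, 5, 5, 3, 6, 6, 7, 8, 9, 8, 7,
   6, 7, 7, 4, 5, 5, 4, 5, 5, 3, 6, 6, 8, 7, 6, 7, 8, 9, 7, 7, 2]

/-- paths that join the ends of an edge and avoid the edge -/
def tabPath : List (List (Fin 52)) :=
   [[5, 4, 7, 1], [1, 2, 8, 5], [1, 2, 3, 6], [0, 5, 8, 2], [2, 3, 6, 0], [2, 3, 4, 7], [1, 0, 6,
   3], [3, 4, 7, 1], [3, 4, 5, 8], [2, 1, 7, 4], [4, 5, 8, 2], [4, 5, 0, 6], [3, 2, 8, 5], [5, 0,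
   6, 3], [5, 0, 1, 7], [4, 3, 6, 0], [0, 1, 7, 4], [0, 1, 2, 8], [3, 4, 5, 0], [0, 1, 2, 3], [0,
   1, 7, 15, 9, 14, 45, 46, 49, 41, 35, 34, 40, 51], [4, 5, 0, 1], [1, 2, 3, 4], [1, 2, 8, 16,
   10, 9, 15], [5, 0, 1, 2], [2, 3, 4, 5], [2, 1, 7, 15, 9, 10, 16], [14, 13, 16, 10], [10, 16,
   13, 14], [10, 11, 12, 15], [9, 15, 12, 11], [11, 12, 15, 9], [11, 12, 13, 16], [10, 9, 15,
   12], [12, 13, 16, 10], [12, 13, 14, 45, 46, 47, 48, 28, 29, 30, 31], [11, 10, 16, 13], [13,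
   16, 10, 11], [13, 14, 9, 15], [12, 15, 9, 14], [14, 9, 15, 12], [14, 9, 10, 16], [13, 12, 15,
   9], [9, 10, 16, 13], [9, 10, 11, 31, 26, 27, 28, 48, 43, 44, 45], [12, 13, 14, 9], [9, 10, 11,
   12], [9, 10, 16, 8, 2, 1, 7], [13, 14, 9, 10], [10, 11, 12, 13], [10, 9, 15, 7, 1, 2, 8], [22,
   21, 24, 18], [18, 19, 25, 22], [18, 19, 20, 23], [17, 22, 25, 19], [19, 20, 23, 17], [19, 20,
   21, 24], [18, 17, 23, 20], [20, 21, 24, 18], [20, 21, 22, 25], [19, 18, 24, 21], [21, 22, 25,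
   19], [21, 22, 17, 23], [20, 19, 25, 22], [22, 17, 23, 20], [22, 17, 18, 24], [21, 20, 23, 17],
   [17, 18, 24, 21], [17, 18, 19, 25], [20, 21, 22, 17], [17, 18, 19, 20], [17, 18, 24, 32, 26,
   31, 11, 12, 15, 7, 1, 0, 6, 51], [21, 22, 17, 18], [18, 19, 20, 21], [18, 19, 25, 33, 27, 26,
   32], [22, 17, 18, 19], [19, 20, 21, 22], [19, 18, 24, 32, 26, 27, 33], [31, 30, 33, 27], [27,
   33, 30, 31], [27, 28, 29, 32], [26, 32, 29, 28], [28, 29, 32, 26], [28, 29, 30, 33], [27, 26,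
   32, 29], [29, 30, 33, 27], [29, 30, 31, 11, 12, 13, 14, 45, 46, 47, 48], [28, 27, 33, 30],
   [30, 33, 27, 28], [30, 31, 26, 32], [29, 32, 26, 31], [31, 26, 32, 29], [31, 26, 27, 33], [30,
   29, 32, 26], [26, 27, 33, 30], [26, 27, 28, 48, 43, 44, 45, 14, 9, 10, 11], [29, 30, 31, 26],
   [26, 27, 28, 29], [26, 27, 33, 25, 19, 18, 24], [30, 31, 26, 27], [27, 28, 29, 30], [27, 26,
   32, 24, 18, 19, 25], [39, 38, 41, 35], [35, 36, 42, 39], [35, 36, 37, 40], [34, 39, 42, 36],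
   [36, 37, 40, 34], [36, 37, 38, 41], [35, 34, 40, 37], [37, 38, 41, 35], [37, 38, 39, 42], [36,
   35, 41, 38], [38, 39, 42, 36], [38, 39, 34, 40], [37, 36, 42, 39], [39, 34, 40, 37], [39, 34,
   35, 41], [38, 37, 40, 34], [34, 35, 41, 38], [34, 35, 36, 42], [37, 38, 39, 34], [34, 35, 36,
   37], [34, 35, 41, 49, 43, 48, 28, 29, 32, 24, 18, 17, 23, 51], [38, 39, 34, 35], [35, 36, 37,
   38], [35, 36, 42, 50, 44, 43, 49], [39, 34, 35, 36], [36, 37, 38, 39], [36, 35, 41, 49, 43,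
   44, 50], [48, 47, 50, 44], [44, 50, 47, 48], [44, 45, 46, 49], [43, 49, 46, 45], [45, 46, 49,
   43], [45, 46, 47, 50], [44, 43, 49, 46], [46, 47, 50, 44], [46, 47, 48, 28, 29, 30, 31, 11,
   12, 13, 14], [45, 44, 50, 47], [47, 50, 44, 45], [47, 48, 43, 49], [46, 49, 43, 48], [48, 43,
   49, 46], [48, 43, 44, 50], [47, 46, 49, 43], [43, 44, 50, 47], [43, 44, 45, 14, 9, 10, 11, 31,
   26, 27, 28], [46, 47, 48, 43], [43, 44, 45, 46], [43, 44, 50, 42, 36, 35, 41], [47, 48, 43,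
   44], [44, 45, 46, 47], [44, 43, 49, 41, 35, 36, 42], [23, 17, 18, 24, 32, 26, 31, 11, 12, 15,
   7, 1, 0, 6], [6, 0, 1, 7, 15, 12, 11, 31, 26, 32, 24, 18, 17, 23], [6, 0, 1, 7, 15, 9, 14, 45,
   46, 49, 41, 35, 34, 40]]

/-- The cubic graph on 52 vertices. -/
def G : SimpleGraph (Fin 52) := mkG (fun _ _ => true) (by decide +kernel)

/-- the even factor with three 9-circuits, a 24-circuit and an isolated vertex -/
def FW : SimpleGraph (Fin 52) :=
  mkG (fun u k => decide (tabWm.getD u 0 ≠ (k : ℕ) ∧ tabWm.getD u 0 ≠ 3)) (by decide +kernel)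

/-- the 2-factor with circuits of lengths 5, 5, 5, 5, 9, 23 -/
def FS : SimpleGraph (Fin 52) :=
  mkG (fun u k => decide (tabSm.getD u 0 ≠ (k : ℕ))) (by decide +kernel)

theorem ncard_mkG (b : Fin 52 → Fin 3 → Bool) (hs) (v : Fin 52) :
    ((mkG b hs).neighborSet v).ncard = (Finset.univ.filter fun k => b v k = true).card := by
  have h : (mkG b hs).neighborSet v = nb v '' {k | b v k = true} := by
    ext w
    constructor
    · rintro ⟨k, hk, rfl⟩
      exact ⟨k, hk, rfl⟩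
    · rintro ⟨k, hk, rfl⟩
      exact ⟨k, hk, rfl⟩
  rw [h, Set.ncard_image_of_injective _ (fun k l => nb_inj v k l), Set.ncard_eq_toFinset_card']
  congr 1
  ext k
  simp

theorem G_cubic (v : Fin 52) : (G.neighborSet v).ncard = 3 := by
  unfold G
  rw [ncard_mkG]
  simp

theorem FW_deg (v : Fin 52) : (FW.neighborSet v).ncard = 0 ∨ (FW.neighborSet v).ncard = 2 := by
  unfold FW
  rw [ncard_mkG]
  revert v
  decide +kernel

theorem FS_deg (v : Fin 52) : (FS.neighborSet v).ncard = 2 := by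
  unfold FS
  rw [ncard_mkG]
  revert v
  decide +kernel

theorem G_adj (u : Fin 52) (k : Fin 3) : G.Adj u (nb u k) := ⟨k, rfl, rfl⟩

theorem FW_le : FW ≤ G := by
  rintro u v ⟨k, _, h⟩
  exact ⟨k, rfl, h⟩

theorem FS_le : FS ≤ G := by
  rintro u v ⟨k, _, h⟩
  exact ⟨k, rfl, h⟩

theorem FW_count : oddCount FW ≤ 5 := by
  have h := oddCount_le (F := FW) (fun v => Fin.ofNat 52 (tabWp.getD v 0))
    (fun v => tabWr.getD v 0) (fun v => by
      have h : ∀ v : Fin 52, Fin.ofNat 52 (tabWp.getD v 0) = v ∨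
        ((∃ k : Fin 3, decide (tabWm.getD v 0 ≠ (k : ℕ) ∧ tabWm.getD v 0 ≠ 3) = true ∧
          nb v k = Fin.ofNat 52 (tabWp.getD v 0)) ∧
          tabWr.getD (Fin.ofNat 52 (tabWp.getD v 0)) 0 < tabWr.getD v 0) := by decide +kernel
      exact h v)
  refine h.trans ?_
  rw [Set.ncard_eq_toFinset_card']
  have h2 : ({v : Fin 52 | Fin.ofNat 52 (tabWp.getD v 0) = v} : Set (Fin 52)).toFinset =
    Finset.univ.filter fun v : Fin 52 => Fin.ofNat 52 (tabWp.getD v 0) = v := by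
    ext v
    simp
  rw [h2]
  decide +kernel

theorem FS_count : oddCount FS ≤ 6 := by
  have h := oddCount_le (F := FS) (fun v => Fin.ofNat 52 (tabSp.getD v 0))
    (fun v => tabSr.getD v 0) (fun v => by
      have h : ∀ v : Fin 52, Fin.ofNat 52 (tabSp.getD v 0) = v ∨
        ((∃ k : Fin 3, decide (tabSm.getD v 0 ≠ (k : ℕ)) = true ∧
          nb v k = Fin.ofNat 52 (tabSp.getD v 0)) ∧
          tabSr.getD (Fin.ofNat 52 (tabSp.getD v 0)) 0 < tabSr.getD v 0) := by decide +kernel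
      exact h v)
  refine h.trans ?_
  rw [Set.ncard_eq_toFinset_card']
  have h2 : ({v : Fin 52 | Fin.ofNat 52 (tabSp.getD v 0) = v} : Set (Fin 52)).toFinset =
    Finset.univ.filter fun v : Fin 52 => Fin.ofNat 52 (tabSp.getD v 0) = v := by
    ext v
    simp
  rw [h2]
  decide +kernel

theorem G_connected : G.Connected := by
  have h : ∀ v : Fin 52, Fin.ofNat 52 (tabGp.getD v 0) = v ∨
        ((∃ k : Fin 3, true = true ∧
          nb v k = Fin.ofNat 52 (tabGp.getD v 0)) ∧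
          tabGr.getD (Fin.ofNat 52 (tabGp.getD v 0)) 0 < tabGr.getD v 0) := by decide +kernel
  have h0 : ∀ v : Fin 52, Fin.ofNat 52 (tabGp.getD v 0) = v → v = 0 := by decide +kernel
  have h1 : ∀ v, G.Reachable v 0 := by
    intro v
    obtain ⟨r, hr1, hr2⟩ := reach_root (F := G) (fun v => Fin.ofNat 52 (tabGp.getD v 0))
      (fun v => tabGr.getD v 0) h v
    rwa [h0 r hr1] at hr2
  exact ⟨fun u v => (h1 u).trans (h1 v).symm⟩

/-- `l` is a path from `x` to `b` that avoids the edge `ab` -/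
def okPath (a b : Fin 52) : Fin 52 → List (Fin 52) → Bool
  | x, [] => decide (x = b)
  | x, y :: l => decide (∃ k : Fin 3, nb x k = y) && !decide (x = a ∧ y = b) &&
      !decide (x = b ∧ y = a) && okPath a b y l

theorem okPath_reach (a b : Fin 52) : ∀ (l : List (Fin 52)) (x : Fin 52),
    okPath a b x l = true → (G.deleteEdges {s(a, b)}).Reachable x b
  | [], x, h => by
    have : x = b := by simpa [okPath] using h
    rw [this]
  | y :: l, x, h => by
    simp only [okPath, Bool.and_eq_true, decide_eq_true_eq, Bool.not_eq_true',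
      decide_eq_false_iff_not] at h
    obtain ⟨⟨⟨⟨k, hk⟩, h2⟩, h3⟩, h4⟩ := h
    refine SimpleGraph.Reachable.trans (SimpleGraph.Adj.reachable ?_) (okPath_reach a b l y h4)
    rw [SimpleGraph.deleteEdges_adj]
    refine ⟨⟨k, rfl, hk⟩, ?_⟩
    rw [Set.mem_singleton_iff, Sym2.eq_iff]
    tauto

theorem G_bridgeless (e : Sym2 (Fin 52)) (he : e ∈ G.edgeSet) : ¬ G.IsBridge e := by
  induction e using Sym2.ind with
  | _ u v =>
    rw [SimpleGraph.mem_edgeSet] at he
    obtain ⟨k, _, rfl⟩ := he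
    rw [SimpleGraph.isBridge_iff, not_not]
    have h : ∀ (u : Fin 52) (k : Fin 3),
        okPath u (nb u k) u (tabPath.getD (3 * (u : ℕ) + (k : ℕ)) []) = true := by decide +kernel
    exact okPath_reach _ _ _ _ (h u k)



def eA (i : Fin 3) (j : Fin 6) : Fin 52 := Fin.ofNat 52 (17 * (i : ℕ) + (j : ℕ))
def eB (i : Fin 3) (k : Fin 3) : Fin 52 := Fin.ofNat 52 (17 * (i : ℕ) + 6 + (k : ℕ))
def eC (i : Fin 3) (j : Fin 6) : Fin 52 := Fin.ofNat 52 (17 * (i : ℕ) + 9 + (j : ℕ))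
def eD (i : Fin 3) (k : Fin 2) : Fin 52 := Fin.ofNat 52 (17 * (i : ℕ) + 15 + (k : ℕ))
def eZ : Fin 52 := 51
def m3 (j : Fin 6) : Fin 3 := Fin.ofNat 3 (j : ℕ)
def c6 (k : Fin 3) : Fin 6 := Fin.ofNat 6 (k : ℕ)
def d6 (k : Fin 2) : Fin 6 := Fin.ofNat 6 (k : ℕ)

theorem nbA0 : ∀ i j, nb (eA i j) 0 = eA i (j + 1) := by decide +kernel
theorem nbA1 : ∀ i j, nb (eA i j) 1 = eA i (j - 1) := by decide +kernel
theorem nbA2 : ∀ i j, nb (eA i j) 2 = eB i (m3 j) := by decide +kernel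
theorem nbB0 : ∀ i k, nb (eB i k) 0 = eA i (c6 k) := by decide +kernel
theorem nbB1 : ∀ i k, nb (eB i k) 1 = eA i (c6 k + 3) := by decide +kernel
theorem nbB20 : ∀ i, nb (eB i 0) 2 = eZ := by decide +kernel
theorem nbB21 : ∀ i, nb (eB i 1) 2 = eD i 0 := by decide +kernel
theorem nbB22 : ∀ i, nb (eB i 2) 2 = eD i 1 := by decide +kernel
theorem nbC0 : ∀ i j, nb (eC i j) 0 = eC i (j + 1) := by decide +kernel
theorem nbC1 : ∀ i j, nb (eC i j) 1 = eC i (j - 1) := by decide +kernel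
theorem nbC20 : ∀ i, nb (eC i 0) 2 = eD i 0 := by decide +kernel
theorem nbC21 : ∀ i, nb (eC i 1) 2 = eD i 1 := by decide +kernel
theorem nbC23 : ∀ i, nb (eC i 3) 2 = eD i 0 := by decide +kernel
theorem nbC24 : ∀ i, nb (eC i 4) 2 = eD i 1 := by decide +kernel
theorem nbD0 : ∀ i k, nb (eD i k) 0 = eC i (d6 k) := by decide +kernel
theorem nbD1 : ∀ i k, nb (eD i k) 1 = eC i (d6 k + 3) := by decide +kernel
theorem nbD20 : ∀ i, nb (eD i 0) 2 = eB i 1 := by decide +kernel
theorem nbD21 : ∀ i, nb (eD i 1) 2 = eB i 2 := by decide +kernel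
theorem nbZ : ∀ k, nb eZ k = eB k 0 := by decide +kernel

/-- the spokes as functions of the hexagon edges -/
def sOf (h : Fin 6 → Bool) (j : Fin 6) : Bool := h j ^^ h (j - 1)

def chkP (h : Fin 6 → Bool) (S : ℕ) : Bool :=
  decide (∀ j : Fin 6, (h j = true → S.testBit j = S.testBit (j + 1 : Fin 6)) ∧
    (sOf h j = true → S.testBit j = S.testBit (6 + (m3 j : ℕ)))) &&
  decide (∀ k : Fin 3, (sOf h (c6 k) ^^ sOf h (c6 k + 3)) = true → S.testBit (6 + (k : ℕ)) = false)

def candP : List ℕ := [1, 2, 4, 8, 16, 32, 64, 128, 256, 511, 79, 121, 158, 179, 316, 295]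

theorem decP : ∀ h0 h1 h2 h3 h4 h5 : Bool, ∃ S ∈ candP, chkP ![h0, h1, h2, h3, h4, h5] S = true := by
  decide +kernel

def chkQ (h : Fin 6 → Bool) (S : ℕ) : Bool :=
  decide (∀ j : Fin 6, (h j = true → S.testBit j = S.testBit (j + 1 : Fin 6))) &&
  decide ((sOf h 0 = true → S.testBit 0 = S.testBit 6) ∧
    (sOf h 1 = true → S.testBit 1 = S.testBit 7) ∧
    (sOf h 3 = true → S.testBit 3 = S.testBit 6) ∧
    (sOf h 4 = true → S.testBit 4 = S.testBit 7) ∧
    (sOf h 2 = true → S.testBit 2 = false) ∧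
    (sOf h 5 = true → S.testBit 5 = false) ∧
    ((sOf h 0 ^^ sOf h 3) = true → S.testBit 6 = false) ∧
    ((sOf h 1 ^^ sOf h 4) = true → S.testBit 7 = false))

def candQ : List ℕ := [79, 121, 158, 179]

theorem decQ : ∀ h0 h1 h2 h3 h4 h5 : Bool,
    (∀ j : Fin 6, (![h0, h1, h2, h3, h4, h5] j || ![h0, h1, h2, h3, h4, h5] (j - 1)) = true) →
    (sOf ![h0, h1, h2, h3, h4, h5] 0 || sOf ![h0, h1, h2, h3, h4, h5] 3) = true →
    (sOf ![h0, h1, h2, h3, h4, h5] 1 || sOf ![h0, h1, h2, h3, h4, h5] 4) = true →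
    ((sOf ![h0, h1, h2, h3, h4, h5] 0 ^^ sOf ![h0, h1, h2, h3, h4, h5] 3) ^^
      (sOf ![h0, h1, h2, h3, h4, h5] 1 ^^ sOf ![h0, h1, h2, h3, h4, h5] 4)) = true →
    ∃ S ∈ candQ, chkQ ![h0, h1, h2, h3, h4, h5] S = true := by
  decide +kernel

theorem vec6 (h : Fin 6 → Bool) : h = ![h 0, h 1, h 2, h 3, h 4, h 5] := by
  funext j
  fin_cases j <;> rfl

def TP (i : Fin 3) (S : ℕ) : Finset (Fin 52) :=
  Finset.univ.filter fun x => (∃ j : Fin 6, S.testBit j = true ∧ eA i j = x) ∨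
    (∃ k : Fin 3, S.testBit (6 + (k : ℕ)) = true ∧ eB i k = x)

def TQ (i : Fin 3) (S : ℕ) : Finset (Fin 52) :=
  Finset.univ.filter fun x => (∃ j : Fin 6, S.testBit j = true ∧ eC i j = x) ∨
    (∃ k : Fin 2, S.testBit (6 + (k : ℕ)) = true ∧ eD i k = x)

theorem odd_TP : ∀ i : Fin 3, ∀ S ∈ candP, Odd (TP i S).card := by decide +kernel

theorem odd_TQ : ∀ i : Fin 3, ∀ S ∈ candQ, Odd (TQ i S).card := by decide +kernel

theorem blkA : ∀ i j, (eA i j : ℕ) / 17 = i ∧ (eA i j : ℕ) % 17 < 9 := by decide +kernel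
theorem blkB : ∀ i k, (eB i k : ℕ) / 17 = i ∧ (eB i k : ℕ) % 17 < 9 := by decide +kernel
theorem blkC : ∀ i j, (eC i j : ℕ) / 17 = i ∧ 9 ≤ (eC i j : ℕ) % 17 := by decide +kernel
theorem blkD : ∀ i k, (eD i k : ℕ) / 17 = i ∧ 9 ≤ (eD i k : ℕ) % 17 := by decide +kernel

theorem blkTP {i : Fin 3} {S : ℕ} {x : Fin 52} (h : x ∈ TP i S) :
    (x : ℕ) / 17 = i ∧ (x : ℕ) % 17 < 9 := by
  simp only [TP, Finset.mem_filter, Finset.mem_univ, true_and] at h
  rcases h with ⟨j, _, rfl⟩ | ⟨k, _, rfl⟩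
  · exact blkA i j
  · exact blkB i k

theorem blkTQ {i : Fin 3} {S : ℕ} {x : Fin 52} (h : x ∈ TQ i S) :
    (x : ℕ) / 17 = i ∧ 9 ≤ (x : ℕ) % 17 := by
  simp only [TQ, Finset.mem_filter, Finset.mem_univ, true_and] at h
  rcases h with ⟨j, _, rfl⟩ | ⟨k, _, rfl⟩
  · exact blkC i j
  · exact blkD i k

theorem m3c6 : ∀ k, m3 (c6 k) = k := by decide
theorem m3c6' : ∀ k, m3 (c6 k + 3) = k := by decide
theorem sub_add6 : ∀ j : Fin 6, j - 1 + 1 = j := by decide

section blocks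

variable {F : SimpleGraph (Fin 52)} {a : Fin 52 → Fin 52 → Bool}

theorem xor_solve {x y z : Bool} (h : ((x ^^ y) ^^ z) = false) : z = (x ^^ y) := by
  revert h; cases x <;> cases y <;> cases z <;> simp

/-- the hexagon edges of the `i`-th copy of `P'` -/
def hP (a : Fin 52 → Fin 52 → Bool) (i : Fin 3) (j : Fin 6) : Bool := a (eA i j) (eA i (j + 1))

/-- the hexagon edges of the `i`-th copy of `Q` -/
def hQ (a : Fin 52 → Fin 52 → Bool) (i : Fin 3) (j : Fin 6) : Bool := a (eC i j) (eC i (j + 1))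

theorem hP_back (hs : ∀ u v, a u v = a v u) (i : Fin 3) (j : Fin 6) :
    a (eA i j) (eA i (j - 1)) = hP a i (j - 1) := by
  unfold hP
  rw [sub_add6, hs]

theorem hQ_back (hs : ∀ u v, a u v = a v u) (i : Fin 3) (j : Fin 6) :
    a (eC i j) (eC i (j - 1)) = hQ a i (j - 1) := by
  unfold hQ
  rw [sub_add6, hs]

theorem spokeP (hs : ∀ u v, a u v = a v u)
    (hp : ∀ v, ((a v (nb v 0) ^^ a v (nb v 1)) ^^ a v (nb v 2)) = false) (i : Fin 3) (j : Fin 6) :
    a (eA i j) (eB i (m3 j)) = sOf (hP a i) j := by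
  have h := xor_solve (hp (eA i j))
  rw [nbA0, nbA1, nbA2, hP_back hs] at h
  exact h

theorem spokeQ (hs : ∀ u v, a u v = a v u)
    (hp : ∀ v, ((a v (nb v 0) ^^ a v (nb v 1)) ^^ a v (nb v 2)) = false) (i : Fin 3) (j : Fin 6) :
    a (eC i j) (nb (eC i j) 2) = sOf (hQ a i) j := by
  have h := xor_solve (hp (eC i j))
  rw [nbC0, nbC1, hQ_back hs] at h
  exact h

theorem outB (hs : ∀ u v, a u v = a v u)
    (hp : ∀ v, ((a v (nb v 0) ^^ a v (nb v 1)) ^^ a v (nb v 2)) = false) (i : Fin 3) (k : Fin 3) :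
    a (eB i k) (nb (eB i k) 2) = (sOf (hP a i) (c6 k) ^^ sOf (hP a i) (c6 k + 3)) := by
  have h := xor_solve (hp (eB i k))
  have h1 := spokeP hs hp i (c6 k)
  have h2 := spokeP hs hp i (c6 k + 3)
  rw [m3c6, hs] at h1
  rw [m3c6', hs] at h2
  rw [nbB0, nbB1, h1, h2] at h
  exact h

theorem m3d6a : ∀ i (k : Fin 2), nb (eC i (d6 k)) 2 = eD i k := by decide +kernel
theorem m3d6b : ∀ i (k : Fin 2), nb (eC i (d6 k + 3)) 2 = eD i k := by decide +kernel

theorem spokeD0 (hs : ∀ u v, a u v = a v u)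
    (hp : ∀ v, ((a v (nb v 0) ^^ a v (nb v 1)) ^^ a v (nb v 2)) = false) (i : Fin 3) (k : Fin 2) :
    a (eD i k) (eC i (d6 k)) = sOf (hQ a i) (d6 k) := by
  have h := spokeQ hs hp i (d6 k)
  rw [m3d6a, hs] at h
  exact h

theorem spokeD1 (hs : ∀ u v, a u v = a v u)
    (hp : ∀ v, ((a v (nb v 0) ^^ a v (nb v 1)) ^^ a v (nb v 2)) = false) (i : Fin 3) (k : Fin 2) :
    a (eD i k) (eC i (d6 k + 3)) = sOf (hQ a i) (d6 k + 3) := by
  have h := spokeQ hs hp i (d6 k + 3)
  rw [m3d6b, hs] at h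
  exact h

theorem outD (hs : ∀ u v, a u v = a v u)
    (hp : ∀ v, ((a v (nb v 0) ^^ a v (nb v 1)) ^^ a v (nb v 2)) = false) (i : Fin 3) (k : Fin 2) :
    a (eD i k) (nb (eD i k) 2) = (sOf (hQ a i) (d6 k) ^^ sOf (hQ a i) (d6 k + 3)) := by
  have h := xor_solve (hp (eD i k))
  rw [nbD0, nbD1, spokeD0 hs hp, spokeD1 hs hp] at h
  exact h

theorem closedP (hle : F ≤ G) (ha : ∀ u v, F.Adj u v ↔ a u v = true)
    (hs : ∀ u v, a u v = a v u)
    (hp : ∀ v, ((a v (nb v 0) ^^ a v (nb v 1)) ^^ a v (nb v 2)) = false) (i : Fin 3) :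
    ∃ S ∈ candP, ∀ u ∈ TP i S, ∀ w, F.Adj u w → w ∈ TP i S := by
  obtain ⟨S, hS, hc⟩ := decP (hP a i 0) (hP a i 1) (hP a i 2) (hP a i 3) (hP a i 4) (hP a i 5)
  rw [← vec6] at hc
  simp only [chkP, Bool.and_eq_true, decide_eq_true_eq] at hc
  obtain ⟨hc1, hc2⟩ := hc
  refine ⟨S, hS, ?_⟩
  intro u hu w huw
  obtain ⟨k, _, hk⟩ := hle huw
  have haw : a u w = true := (ha u w).1 huw
  simp only [TP, Finset.mem_filter, Finset.mem_univ, true_and] at hu ⊢
  rcases hu with ⟨j, hj, rfl⟩ | ⟨l, hl, rfl⟩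
  · fin_cases k
    · have hw : eA i (j + 1) = w := (nbA0 i j).symm.trans hk
      subst hw
      exact Or.inl ⟨j + 1, ((hc1 j).1 haw) ▸ hj, rfl⟩
    · have hw : eA i (j - 1) = w := (nbA1 i j).symm.trans hk
      subst hw
      rw [hP_back hs] at haw
      have h1 := (hc1 (j - 1)).1 haw
      rw [sub_add6] at h1
      exact Or.inl ⟨j - 1, h1.trans hj, rfl⟩
    · have hw : eB i (m3 j) = w := (nbA2 i j).symm.trans hk
      subst hw
      rw [spokeP hs hp] at haw
      exact Or.inr ⟨m3 j, ((hc1 j).2 haw) ▸ hj, rfl⟩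
  · fin_cases k
    · have hw : eA i (c6 l) = w := (nbB0 i l).symm.trans hk
      subst hw
      have h1 := spokeP hs hp i (c6 l)
      rw [m3c6, hs, haw] at h1
      have h2 := (hc1 (c6 l)).2 h1.symm
      rw [m3c6] at h2
      exact Or.inl ⟨c6 l, h2.trans hl, rfl⟩
    · have hw : eA i (c6 l + 3) = w := (nbB1 i l).symm.trans hk
      subst hw
      have h1 := spokeP hs hp i (c6 l + 3)
      rw [m3c6', hs, haw] at h1
      have h2 := (hc1 (c6 l + 3)).2 h1.symm
      rw [m3c6'] at h2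
      exact Or.inl ⟨c6 l + 3, h2.trans hl, rfl⟩
    · exfalso
      have hw : nb (eB i l) 2 = w := hk
      subst hw
      rw [outB hs hp] at haw
      have h2 := hc2 l haw
      rw [h2] at hl
      exact Bool.false_ne_true hl

theorem xorP (h : Fin 6 → Bool) :
    (((sOf h (c6 0) ^^ sOf h (c6 0 + 3)) ^^ (sOf h (c6 1) ^^ sOf h (c6 1 + 3))) ^^
      (sOf h (c6 2) ^^ sOf h (c6 2 + 3))) = false := by
  rw [vec6 h]
  generalize h 0 = x0
  generalize h 1 = x1
  generalize h 2 = x2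
  generalize h 3 = x3
  generalize h 4 = x4
  generalize h 5 = x5
  revert x0 x1 x2 x3 x4 x5
  decide +kernel

theorem closedQ (hle : F ≤ G) (ha : ∀ u v, F.Adj u v ↔ a u v = true)
    (hs : ∀ u v, a u v = a v u)
    (hp : ∀ v, ((a v (nb v 0) ^^ a v (nb v 1)) ^^ a v (nb v 2)) = false)
    (ht : ∀ v, ((a v (nb v 0) || a v (nb v 1)) || a v (nb v 2)) = true) (i : Fin 3)
    (hz : a (eB i 0) eZ = true) :
    ∃ S ∈ candQ, ∀ u ∈ TQ i S, ∀ w, F.Adj u w → w ∈ TQ i S := by
  have hd : ((sOf (hQ a i) 0 ^^ sOf (hQ a i) 3) ^^ (sOf (hQ a i) 1 ^^ sOf (hQ a i) 4)) = true := by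
    have h0 := outB hs hp i 0
    have h1 := outB hs hp i 1
    have h2 := outB hs hp i 2
    have hx := xorP (hP a i)
    have e0 := outD hs hp i 0
    have e1 := outD hs hp i 1
    rw [← h0, ← h1, ← h2, nbB20, nbB21, nbB22, hz] at hx
    rw [nbD20, hs] at e0
    rw [nbD21, hs] at e1
    have e0' : a (eB i 1) (eD i 0) = (sOf (hQ a i) 0 ^^ sOf (hQ a i) 3) := e0
    have e1' : a (eB i 2) (eD i 1) = (sOf (hQ a i) 1 ^^ sOf (hQ a i) 4) := e1
    rw [← e0', ← e1']
    revert hx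
    cases a (eB i 1) (eD i 0) <;> cases a (eB i 2) (eD i 1) <;> simp
  have hj : ∀ j : Fin 6, (hQ a i j || hQ a i (j - 1)) = true := by
    intro j
    have h1 := ht (eC i j)
    rw [spokeQ hs hp, nbC0, nbC1, hQ_back hs] at h1
    have h2 : a (eC i j) (eC i (j + 1)) = hQ a i j := rfl
    rw [h2] at h1
    revert h1
    unfold sOf
    cases hQ a i j <;> cases hQ a i (j - 1) <;> simp
  have hD : ∀ k : Fin 2, (sOf (hQ a i) (d6 k) || sOf (hQ a i) (d6 k + 3)) = true := by
    intro k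
    have h1 := ht (eD i k)
    rw [outD hs hp, nbD0, nbD1, spokeD0 hs hp, spokeD1 hs hp] at h1
    revert h1
    cases sOf (hQ a i) (d6 k) <;> cases sOf (hQ a i) (d6 k + 3) <;> simp
  obtain ⟨S, hS, hc⟩ := decQ (hQ a i 0) (hQ a i 1) (hQ a i 2) (hQ a i 3) (hQ a i 4) (hQ a i 5)
    (by rw [← vec6]; exact hj) (by rw [← vec6]; exact hD 0) (by rw [← vec6]; exact hD 1)
    (by rw [← vec6]; exact hd)
  rw [← vec6] at hc
  simp only [chkQ, Bool.and_eq_true, decide_eq_true_eq] at hc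
  obtain ⟨hc1, q0, q1, q3, q4, q2, q5, qd0, qd1⟩ := hc
  have s2 : sOf (hQ a i) 2 = true → S.testBit 2 = false := q2
  have s5 : sOf (hQ a i) 5 = true → S.testBit 5 = false := q5
  have qk : ∀ k : Fin 2, (sOf (hQ a i) (d6 k) = true → S.testBit (d6 k) = S.testBit (6 + (k : ℕ))) ∧
      (sOf (hQ a i) (d6 k + 3) = true → S.testBit (d6 k + 3 : Fin 6) = S.testBit (6 + (k : ℕ))) := by
    intro k
    fin_cases k
    · exact ⟨q0, q3⟩
    · exact ⟨q1, q4⟩
  have qo : ∀ k : Fin 2, (sOf (hQ a i) (d6 k) ^^ sOf (hQ a i) (d6 k + 3)) = true →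
      S.testBit (6 + (k : ℕ)) = false := by
    intro k
    fin_cases k
    · exact qd0
    · exact qd1
  have hj6 : ∀ j : Fin 6, (∃ k : Fin 2, j = d6 k) ∨ (∃ k : Fin 2, j = d6 k + 3) ∨ j = 2 ∨ j = 5 := by
    decide
  refine ⟨S, hS, ?_⟩
  intro u hu w huw
  obtain ⟨k, _, hk⟩ := hle huw
  have haw : a u w = true := (ha u w).1 huw
  simp only [TQ, Finset.mem_filter, Finset.mem_univ, true_and] at hu ⊢
  rcases hu with ⟨j, hj, rfl⟩ | ⟨l, hl, rfl⟩
  · fin_cases k
    · have hw : eC i (j + 1) = w := (nbC0 i j).symm.trans hk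
      subst hw
      exact Or.inl ⟨j + 1, (hc1 j haw) ▸ hj, rfl⟩
    · have hw : eC i (j - 1) = w := (nbC1 i j).symm.trans hk
      subst hw
      rw [hQ_back hs] at haw
      have h1 := hc1 (j - 1) haw
      rw [sub_add6] at h1
      exact Or.inl ⟨j - 1, h1.trans hj, rfl⟩
    · have hw : nb (eC i j) 2 = w := hk
      subst hw
      rw [spokeQ hs hp] at haw
      rcases hj6 j with ⟨k, rfl⟩ | ⟨k, rfl⟩ | rfl | rfl
      · rw [m3d6a]
        exact Or.inr ⟨k, ((qk k).1 haw) ▸ hj, rfl⟩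
      · rw [m3d6b]
        exact Or.inr ⟨k, ((qk k).2 haw) ▸ hj, rfl⟩
      · exact absurd ((s2 haw).symm.trans hj) Bool.false_ne_true
      · exact absurd ((s5 haw).symm.trans hj) Bool.false_ne_true
  · fin_cases k
    · have hw : eC i (d6 l) = w := (nbD0 i l).symm.trans hk
      subst hw
      rw [spokeD0 hs hp] at haw
      exact Or.inl ⟨d6 l, ((qk l).1 haw).trans hl, rfl⟩
    · have hw : eC i (d6 l + 3) = w := (nbD1 i l).symm.trans hk
      subst hw
      rw [spokeD1 hs hp] at haw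
      exact Or.inl ⟨d6 l + 3, ((qk l).2 haw).trans hl, rfl⟩
    · exfalso
      have hw : nb (eD i l) 2 = w := hk
      subst hw
      rw [outD hs hp] at haw
      rw [qo l haw] at hl
      exact Bool.false_ne_true hl

end blocks

section main

variable {F : SimpleGraph (Fin 52)}

theorem ncard_nbr (hle : F ≤ G) (a : Fin 52 → Fin 52 → Bool)
    (ha : ∀ u v, F.Adj u v ↔ a u v = true) (v : Fin 52) :
    (F.neighborSet v).ncard =
      (a v (nb v 0)).toNat + (a v (nb v 1)).toNat + (a v (nb v 2)).toNat := by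
  have h : F.neighborSet v = nb v '' {k | a v (nb v k) = true} := by
    ext w
    constructor
    · intro hw
      obtain ⟨k, _, rfl⟩ := hle hw
      exact ⟨k, (ha _ _).1 hw, rfl⟩
    · rintro ⟨k, hk, rfl⟩
      exact (ha _ _).2 hk
  rw [h, Set.ncard_image_of_injective _ (fun k l => nb_inj v k l), Set.ncard_eq_toFinset_card']
  have h2 : ({k | a v (nb v k) = true} : Set (Fin 3)).toFinset =
      Finset.univ.filter fun k : Fin 3 => a v (nb v k) = true := by
    ext k
    simp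
  rw [h2, Finset.card_filter, Fin.sum_univ_three]
  cases a v (nb v 0) <;> cases a v (nb v 1) <;> cases a v (nb v 2) <;> simp

theorem even_lower (hF : IsEvenFactor G F) : 4 ≤ oddCount F := by
  classical
  obtain ⟨hle, hdeg⟩ := hF
  let a : Fin 52 → Fin 52 → Bool := fun u v => decide (F.Adj u v)
  have ha : ∀ u v, F.Adj u v ↔ a u v = true := fun u v => by simp [a]
  have hs : ∀ u v, a u v = a v u := fun u v => by simp [a, F.adj_comm]
  have hp : ∀ v, ((a v (nb v 0) ^^ a v (nb v 1)) ^^ a v (nb v 2)) = false := by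
    intro v
    have h := hdeg v
    rw [ncard_nbr hle a ha] at h
    revert h
    cases a v (nb v 0) <;> cases a v (nb v 1) <;> cases a v (nb v 2) <;> simp
  choose S hS hcl using closedP hle ha hs hp
  have h3 : Fintype.card (Fin 3) ≤ oddCount F := by
    refine card_le_oddCount F (fun i => (TP i (S i) : Set (Fin 52))) ?_ ?_ ?_
    · intro i u hu w hw
      exact Finset.mem_coe.2 (hcl i u (Finset.mem_coe.1 hu) w hw)
    · intro i
      rw [Set.ncard_coe_finset]
      exact odd_TP i _ (hS i)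
    · intro i j hij
      rw [Set.disjoint_left]
      intro x hx hy
      have h1 := (blkTP (Finset.mem_coe.1 hx)).1
      have h2 := (blkTP (Finset.mem_coe.1 hy)).1
      exact hij (Fin.ext (h1.symm.trans h2))
  rw [Fintype.card_fin] at h3
  have he := even_oddCount F (by rw [Nat.card_eq_fintype_card, Fintype.card_fin]; decide)
  obtain ⟨m, hm⟩ := he
  omega

theorem two_lower (hF : IsTwoFactor G F) : 6 ≤ oddCount F := by
  classical
  obtain ⟨hle, hdeg⟩ := hF
  let a : Fin 52 → Fin 52 → Bool := fun u v => decide (F.Adj u v)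
  have ha : ∀ u v, F.Adj u v ↔ a u v = true := fun u v => by simp [a]
  have hs : ∀ u v, a u v = a v u := fun u v => by simp [a, F.adj_comm]
  have hp : ∀ v, ((a v (nb v 0) ^^ a v (nb v 1)) ^^ a v (nb v 2)) = false := by
    intro v
    have h := hdeg v
    rw [ncard_nbr hle a ha] at h
    revert h
    cases a v (nb v 0) <;> cases a v (nb v 1) <;> cases a v (nb v 2) <;> simp
  have ht : ∀ v, ((a v (nb v 0) || a v (nb v 1)) || a v (nb v 2)) = true := by
    intro v
    have h := hdeg v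
    rw [ncard_nbr hle a ha] at h
    revert h
    cases a v (nb v 0) <;> cases a v (nb v 1) <;> cases a v (nb v 2) <;> simp
  -- two of the edges at the centre are used
  have hz : ∃ i₁ i₂ : Fin 3, i₁ ≠ i₂ ∧ a (eB i₁ 0) eZ = true ∧ a (eB i₂ 0) eZ = true := by
    have h := hdeg eZ
    rw [ncard_nbr hle a ha, nbZ, nbZ, nbZ, hs eZ (eB 0 0), hs eZ (eB 1 0), hs eZ (eB 2 0)] at h
    cases h0 : a (eB 0 0) eZ <;> cases h1 : a (eB 1 0) eZ <;> cases h2 : a (eB 2 0) eZ <;>
      rw [h0, h1, h2] at h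
    · simp at h
    · simp at h
    · simp at h
    · exact ⟨1, 2, by decide, h1, h2⟩
    · simp at h
    · exact ⟨0, 2, by decide, h0, h2⟩
    · exact ⟨0, 1, by decide, h0, h1⟩
    · exact ⟨0, 1, by decide, h0, h1⟩
  obtain ⟨i₁, i₂, hne, hz1, hz2⟩ := hz
  choose S hS hcl using closedP hle ha hs hp
  let q : Fin 2 → Fin 3 := fun k => if k = 0 then i₁ else i₂
  have hq : Function.Injective q := by
    intro k l hkl
    fin_cases k <;> fin_cases l <;> simp [q] at hkl ⊢
    · exact hne hkl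
    · exact hne hkl.symm
  have hzq : ∀ k, a (eB (q k) 0) eZ = true := by
    intro k
    fin_cases k
    · exact hz1
    · exact hz2
  choose R hR hcr using fun k => closedQ hle ha hs hp ht (q k) (hzq k)
  have h5 : Fintype.card (Fin 3 ⊕ Fin 2) ≤ oddCount F := by
    refine card_le_oddCount F (Sum.elim (fun i => (TP i (S i) : Set (Fin 52)))
      (fun k => (TQ (q k) (R k) : Set (Fin 52)))) ?_ ?_ ?_
    · rintro (i | k) u hu w hw
      · exact Finset.mem_coe.2 (hcl i u (Finset.mem_coe.1 hu) w hw)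
      · exact Finset.mem_coe.2 (hcr k u (Finset.mem_coe.1 hu) w hw)
    · rintro (i | k)
      · simp only [Sum.elim_inl]
        rw [Set.ncard_coe_finset]
        exact odd_TP i _ (hS i)
      · simp only [Sum.elim_inr]
        rw [Set.ncard_coe_finset]
        exact odd_TQ (q k) _ (hR k)
    · rintro (i | k) (j | l) hij
      · rw [Set.disjoint_left]
        intro x hx hy
        have h1 := (blkTP (Finset.mem_coe.1 hx)).1
        have h2 := (blkTP (Finset.mem_coe.1 hy)).1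
        exact hij (congrArg Sum.inl (Fin.ext (h1.symm.trans h2)))
      · rw [Set.disjoint_left]
        intro x hx hy
        have h1 := (blkTP (Finset.mem_coe.1 hx)).2
        have h2 := (blkTQ (Finset.mem_coe.1 hy)).2
        omega
      · rw [Set.disjoint_left]
        intro x hx hy
        have h1 := (blkTQ (Finset.mem_coe.1 hx)).2
        have h2 := (blkTP (Finset.mem_coe.1 hy)).2
        omega
      · rw [Set.disjoint_left]
        intro x hx hy
        have h1 := (blkTQ (Finset.mem_coe.1 hx)).1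
        have h2 := (blkTQ (Finset.mem_coe.1 hy)).1
        exact hij (congrArg Sum.inr (hq (Fin.ext (h1.symm.trans h2))))
  have h5' : Fintype.card (Fin 3 ⊕ Fin 2) = 5 := by simp
  rw [h5'] at h5
  have he := even_oddCount F (by rw [Nat.card_eq_fintype_card, Fintype.card_fin]; decide)
  obtain ⟨m, hm⟩ := he
  omega

theorem weak_eq : weakOddness G = 4 := by
  have hW : IsEvenFactor G FW := ⟨FW_le, FW_deg⟩
  have h4 : oddCount FW = 4 := by
    have h1 := even_lower hW
    have h2 := FW_count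
    obtain ⟨m, hm⟩ := even_oddCount FW
      (by rw [Nat.card_eq_fintype_card, Fintype.card_fin]; decide)
    omega
  unfold weakOddness
  have h : 4 ∈ {k : ℕ | ∃ F : SimpleGraph (Fin 52), IsEvenFactor G F ∧ oddCount F = k} :=
    ⟨FW, hW, h4⟩
  apply le_antisymm (Nat.sInf_le h)
  refine le_csInf ⟨4, h⟩ ?_
  rintro k ⟨F, hF, rfl⟩
  exact even_lower hF

theorem strong_eq : oddness G = 6 := by
  have hS : IsTwoFactor G FS := ⟨FS_le, FS_deg⟩
  have h6 : oddCount FS = 6 := le_antisymm FS_count (two_lower hS)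
  unfold oddness
  have h : 6 ∈ {k : ℕ | ∃ F : SimpleGraph (Fin 52), IsTwoFactor G F ∧ oddCount F = k} :=
    ⟨FS, hS, h6⟩
  apply le_antisymm (Nat.sInf_le h)
  refine le_csInf ⟨6, h⟩ ?_
  rintro k ⟨F, hF, rfl⟩
  exact two_lower hF

end main

/-- There is a connected bridgeless cubic graph (simple, with 52 vertices) with weak oddness 4 and
oddness 6. -/
theorem result : ∃ G : SimpleGraph (Fin 52), (∀ v, (G.neighborSet v).ncard = 3) ∧ G.Connected ∧
    (∀ e ∈ G.edgeSet, ¬ G.IsBridge e) ∧ weakOddness G = 4 ∧ oddness G = 6 :=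
  ⟨G, G_cubic, G_connected, G_bridgeless, weak_eq, strong_eq⟩

end Pool.Agent.Results.MP_ada129_co.WeakOddnessFour
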